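import Pool.Agent.P8H30.OX.Stm

/-!
# Project OX, package GCL (helper5): `Gal Y` is closed under rational families
-/

set_option autoImplicit false

open Matrix

namespace Pool.Agent.P8H5.OX

open Pool.Agent.Y119.HY
open Pool.Agent.P8H30.OX

theorem clr {n : ℕ} (A : Matrix (Fin n) (Fin n) ℂ) (z L : ℂ) (M : Matrix (Fin n) (Fin n) (Polynomial ℂ))
    (r : Polynomial ℂ) (P : MvPolynomial (Vr n) ℂ) : ∃ (N : ℕ) (q : Polynomial ℂ), ∀ t : ℂ, r.eval t ≠ 0 →
      (r.eval t) ^ N * ev P z L (A * ((r.eval t)⁻¹ • M.map (Polynomial.eval t))) = q.eval t := by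
  induction P using MvPolynomial.induction_on with
  | C a =>
    refine ⟨0, Polynomial.C a, fun t _ => ?_⟩
    rw [pow_zero, one_mul, Polynomial.eval_C]
    unfold ev
    rw [MvPolynomial.eval_C]
  | add p p' h h' =>
    obtain ⟨N, q, hq⟩ := h
    obtain ⟨N', q', hq'⟩ := h'
    refine ⟨N + N', r ^ N' * q + r ^ N * q', fun t ht => ?_⟩
    rw [Polynomial.eval_add, Polynomial.eval_mul, Polynomial.eval_mul, Polynomial.eval_pow,
      Polynomial.eval_pow, ← hq t ht, ← hq' t ht]
    unfold ev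
    rw [map_add]
    ring
  | mul_X p i h =>
    obtain ⟨N, q, hq⟩ := h
    have key : ∃ (m : ℕ) (s : Polynomial ℂ), ∀ t : ℂ, r.eval t ≠ 0 →
        (r.eval t) ^ m * pt z L (A * ((r.eval t)⁻¹ • M.map (Polynomial.eval t))) i = s.eval t := by
      rcases i with _ | _ | ⟨i, j⟩
      · exact ⟨0, Polynomial.C z, fun t _ => by rw [pow_zero, one_mul, Polynomial.eval_C]; rfl⟩
      · exact ⟨0, Polynomial.C L, fun t _ => by rw [pow_zero, one_mul, Polynomial.eval_C]; rfl⟩
      · refine ⟨1, ∑ k, Polynomial.C (A i k) * M k j, fun t ht => ?_⟩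
        have h1 : pt z L (A * ((r.eval t)⁻¹ • M.map (Polynomial.eval t))) (some (some (i, j))) =
            (A * ((r.eval t)⁻¹ • M.map (Polynomial.eval t))) i j := rfl
        rw [h1, Matrix.mul_smul, Matrix.smul_apply, smul_eq_mul, pow_one, ← mul_assoc, mul_inv_cancel₀ ht,
          one_mul, Matrix.mul_apply, Polynomial.eval_finsetSum]
        refine Finset.sum_congr rfl fun k _ => ?_
        rw [Polynomial.eval_mul, Polynomial.eval_C, Matrix.map_apply]
    obtain ⟨m, s, hs⟩ := key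
    refine ⟨N + m, q * s, fun t ht => ?_⟩
    rw [Polynomial.eval_mul, ← hq t ht, ← hs t ht]
    unfold ev
    rw [map_mul, MvPolynomial.eval_X]
    ring

theorem gcl : S_GCL := by
  intro n Y M r hinf t ht P hP x hx hx1
  obtain ⟨N, q, hq⟩ := clr (Y (x : ℂ)) (x : ℂ) (Complex.log x) M r P
  have hq0 : q = 0 := by
    refine Polynomial.eq_zero_of_infinite_isRoot q (hinf.mono fun t' ht' => ?_)
    obtain ⟨h1, h2⟩ := ht'
    have h3 := hq t' h1
    have h4 : ev P (x : ℂ) (Complex.log x) (Y (x : ℂ) * ((r.eval t')⁻¹ • M.map (Polynomial.eval t'))) = 0 :=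
      h2 P hP x hx hx1
    rw [h4, mul_zero] at h3
    exact h3.symm
  have h5 := hq t ht
  rw [hq0, Polynomial.eval_zero] at h5
  exact (mul_eq_zero.1 h5).resolve_left (pow_ne_zero N ht)

end Pool.Agent.P8H5.OX
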