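import Pool.Agent.P8H30.OX.Stm
import Pool.Agent.P8H40.HA.Sp

/-!
# Project OX, package OCO (helper5): independent coordinates on cosets of the orthogonal group

Adapted from `Pool/Agent/P8H40/HA/Sp.lean` and `Pool/Agent/P8H29/MX/Coo.lean`.
-/

set_option autoImplicit false

open MvPolynomial Matrix

namespace Pool.Agent.P8H5.OX.Oco

open Pool.Agent.P8H40.HA (clr clr_map cayley)
open Pool.Agent.P8H30.MX

variable {n : ℕ}

/-- the places above the diagonal -/
abbrev Uk (n : ℕ) : Type := {p : Fin n × Fin n // p.1 < p.2}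

lemma card_Uk (n : ℕ) : Fintype.card (Uk n) = n * (n - 1) / 2 := by
  rw [Fintype.card_subtype]
  have h1 : ((Finset.univ : Finset (Fin n × Fin n)).filter fun p => p.1 < p.2) =
      (Finset.univ : Finset (Fin n)).biUnion fun j => (Finset.Iio j).image fun i => (i, j) := by
    ext p
    simp only [Finset.mem_filter, Finset.mem_univ, true_and, Finset.mem_biUnion, Finset.mem_image, Finset.mem_Iio]
    constructor
    · intro h
      exact ⟨p.2, p.1, h, rfl⟩
    · rintro ⟨j, i, h, rfl⟩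
      exact h
  rw [h1, Finset.card_biUnion]
  · have h2 : ∀ j : Fin n, ((Finset.Iio j).image fun i => (i, j)).card = (j : ℕ) := by
      intro j
      rw [Finset.card_image_of_injective _ (fun a b h => (Prod.mk.inj h).1), Fin.card_Iio]
    simp only [h2]
    rw [Fin.sum_univ_eq_sum_range (fun i => i) n, Finset.sum_range_id]
  · intro i _ j _ hij
    rw [Function.onFun, Finset.disjoint_left]
    intro p hp hq
    rw [Finset.mem_image] at hp hq
    obtain ⟨a, -, ha⟩ := hp
    obtain ⟨b, -, hb⟩ := hq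
    apply hij
    rw [← ha] at hb
    exact (Prod.mk.inj hb).2.symm

/-- the generic skew symmetric matrix with entries in a ring -/
def Gk {R : Type*} [CommRing R] (a : Uk n → R) : Matrix (Fin n) (Fin n) R :=
  Matrix.of fun i j => if h : i < j then a ⟨(i, j), h⟩ else if h : j < i then -a ⟨(j, i), h⟩ else 0

lemma Gk_skew {R : Type*} [CommRing R] (a : Uk n → R) : (Gk a).transpose = -Gk a := by
  ext i j
  simp only [Gk, Matrix.transpose_apply, Matrix.neg_apply, Matrix.of_apply]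
  rcases lt_trichotomy i j with h | h | h
  · rw [dif_neg (not_lt.2 h.le), dif_pos h, dif_pos h]
  · subst h
    simp
  · rw [dif_pos h, dif_neg (not_lt.2 h.le), dif_pos h, neg_neg]

lemma Gk_apply {R : Type*} [CommRing R] (a : Uk n → R) (p : Uk n) : Gk a p.1.1 p.1.2 = a p := by
  simp only [Gk, Matrix.of_apply]
  rw [dif_pos p.2]

lemma Gk_map {R R' : Type*} [CommRing R] [Algebra ℂ R] [CommRing R'] [Algebra ℂ R'] (f : R →ₐ[ℂ] R')
    (a : Uk n → R) (i j : Fin n) : f (Gk a i j) = Gk (fun p => f (a p)) i j := by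
  simp only [Gk, Matrix.of_apply]
  split_ifs
  · rfl
  · rw [map_neg]
  · rw [map_zero]

lemma sym_inv {k : Type*} [Field k] {J : Matrix (Fin n) (Fin n) k} (hJ : J.transpose = J) (hdet : J.det ≠ 0)
    {A : Matrix (Fin n) (Fin n) k} (hA : A.transpose = -A) : (J⁻¹ * A).transpose * J = -(J * (J⁻¹ * A)) := by
  have h1 : J * J⁻¹ = 1 := Matrix.mul_nonsing_inv _ (Ne.isUnit hdet)
  have h2 : J⁻¹ * J = 1 := Matrix.nonsing_inv_mul _ (Ne.isUnit hdet)
  rw [Matrix.transpose_mul, hA, Matrix.transpose_nonsing_inv, hJ, ← Matrix.mul_assoc J, h1, Matrix.one_mul,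
    Matrix.mul_assoc, h2, Matrix.mul_one]

/-- the matrix `S` with `J S` skew symmetric -/
noncomputable def Sm {R : Type*} [CommRing R] [Algebra ℂ R] (J : Matrix (Fin n) (Fin n) ℂ) (a : Uk n → R) :
    Matrix (Fin n) (Fin n) R := (J⁻¹).map (algebraMap ℂ R) * Gk a

lemma Sm_map {R R' : Type*} [CommRing R] [Algebra ℂ R] [CommRing R'] [Algebra ℂ R'] (f : R →ₐ[ℂ] R')
    (J : Matrix (Fin n) (Fin n) ℂ) (a : Uk n → R) : (Sm J a).map f = Sm J (fun p => f (a p)) := by
  unfold Sm
  rw [Matrix.map_mul]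
  congr 1
  · ext i j
    simp
  · ext i j
    exact Gk_map f a i j

/-- the numerators -/
noncomputable def Um {R : Type*} [CommRing R] [Algebra ℂ R] (J : Matrix (Fin n) (Fin n) ℂ) (a : Uk n → R) :
    Matrix (Fin n) (Fin n) R := (1 + Sm J a) * (1 - Sm J a).adjugate

/-- the denominator -/
noncomputable def Dm {R : Type*} [CommRing R] [Algebra ℂ R] (J : Matrix (Fin n) (Fin n) ℂ) (a : Uk n → R) : R :=
  (1 - Sm J a).det

lemma Dm_map {R R' : Type*} [CommRing R] [Algebra ℂ R] [CommRing R'] [Algebra ℂ R'] (f : R →ₐ[ℂ] R')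
    (J : Matrix (Fin n) (Fin n) ℂ) (a : Uk n → R) : f (Dm J a) = Dm J (fun p => f (a p)) := by
  unfold Dm
  rw [← Sm_map f, AlgHom.map_det]
  congr 1
  rw [map_sub, map_one]
  rfl

lemma Um_map {R R' : Type*} [CommRing R] [Algebra ℂ R] [CommRing R'] [Algebra ℂ R'] (f : R →ₐ[ℂ] R')
    (J : Matrix (Fin n) (Fin n) ℂ) (a : Uk n → R) : (Um J a).map f = Um J (fun p => f (a p)) := by
  have h0 : ∀ M : Matrix (Fin n) (Fin n) R, M.map f = f.mapMatrix M := fun _ => rfl
  unfold Um
  rw [← Sm_map f, h0, map_mul, AlgHom.map_adjugate, map_add, map_sub, map_one]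
  rfl

lemma Um_div {k : Type*} [Field k] [Algebra ℂ k] (J : Matrix (Fin n) (Fin n) ℂ) (a : Uk n → k) (i j : Fin n) :
    Um J a i j / Dm J a = ((1 + Sm J a) * (1 - Sm J a)⁻¹) i j := by
  unfold Um Dm
  rw [Matrix.inv_def, Ring.inverse_eq_inv', Matrix.mul_smul, Matrix.smul_apply, smul_eq_mul, div_eq_mul_inv, mul_comm]

/-- the numerators of `h g` -/
noncomputable def Uh {R : Type*} [CommRing R] [Algebra ℂ R] (J h : Matrix (Fin n) (Fin n) ℂ) (a : Uk n → R) :
    Matrix (Fin n) (Fin n) R := h.map (algebraMap ℂ R) * Um J a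

lemma Uh_map {R R' : Type*} [CommRing R] [Algebra ℂ R] [CommRing R'] [Algebra ℂ R'] (f : R →ₐ[ℂ] R')
    (J h : Matrix (Fin n) (Fin n) ℂ) (a : Uk n → R) : (Uh J h a).map f = Uh J h (fun p => f (a p)) := by
  unfold Uh
  rw [Matrix.map_mul, Um_map]
  congr 1
  ext i j
  simp

lemma Uh_div {k : Type*} [Field k] [Algebra ℂ k] (J h : Matrix (Fin n) (Fin n) ℂ) (a : Uk n → k) (i j : Fin n) :
    Uh J h a i j / Dm J a = (h.map (algebraMap ℂ k) * ((1 + Sm J a) * (1 - Sm J a)⁻¹)) i j := by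
  unfold Uh
  rw [Matrix.mul_apply, Matrix.mul_apply, Finset.sum_div]
  refine Finset.sum_congr rfl fun l _ => ?_
  rw [mul_div_assoc, Um_div]

/-- **Independent coordinates on cosets of the orthogonal group.** -/
theorem exists_coords (J h : Matrix (Fin n) (Fin n) ℂ) (hJ : J.transpose = J) (hdet : J.det ≠ 0) (hh : h.det ≠ 0) :
    ∃ T : Fin (n * (n - 1) / 2) → Fin n × Fin n, ∀ P : MvPolynomial (Fin (n * (n - 1) / 2)) ℂ, P ≠ 0 →
      ∃ g : Matrix (Fin n) (Fin n) ℂ, g.transpose * J * g = J ∧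
        eval (fun i => (h * g) (T i).1 (T i).2) P ≠ 0 := by
  classical
  set Rg := MvPolynomial (Uk n) ℂ with hRg
  set F := FractionRing Rg with hF
  set φ : Rg →ₐ[ℂ] F := IsScalarTower.toAlgHom ℂ Rg F with hφ
  have hφi : Function.Injective φ := IsFractionRing.injective Rg F
  set D : Rg := Dm J X with hDdef
  have hD0 : D ≠ 0 := by
    intro h
    have h1 := Dm_map (aeval (fun _ : Uk n => (0 : ℂ)) : Rg →ₐ[ℂ] ℂ) J X
    rw [← hDdef, h, map_zero] at h1
    simp only [aeval_X] at h1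
    have h2 : Sm J (fun _ : Uk n => (0 : ℂ)) = 0 := by
      unfold Sm
      have : Gk (fun _ : Uk n => (0 : ℂ)) = 0 := by
        ext i j
        simp [Gk]
      rw [this, Matrix.mul_zero]
    unfold Dm at h1
    rw [h2, sub_zero, Matrix.det_one] at h1
    exact zero_ne_one h1
  have hφD : φ D ≠ 0 := fun h => hD0 (hφi (by rw [h, map_zero]))
  -- the generic element
  set av : Uk n → F := fun p => φ (X p) with hav
  set S : Matrix (Fin n) (Fin n) F := Sm J av with hS
  have hDet : (1 - S).det ≠ 0 := by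
    have h1 := Dm_map φ J X
    rw [← hDdef] at h1
    rw [h1] at hφD
    exact hφD
  set g : Matrix (Fin n) (Fin n) F := (1 + S) * (1 - S)⁻¹ with hg
  set G : Matrix (Fin n) (Fin n) F := h.map (algebraMap ℂ F) * g with hG
  set s : Set F := Set.range fun p : Fin n × Fin n => G p.1 p.2 with hs
  -- the field generated by the entries
  set B := IntermediateField.adjoin ℂ s with hB
  have hGB : ∀ i j, G i j ∈ B := fun i j => IntermediateField.subset_adjoin ℂ s ⟨(i, j), rfl⟩
  have hgG : (h⁻¹).map (algebraMap ℂ F) * G = g := by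
    rw [hG, ← Matrix.mul_assoc, ← Matrix.map_mul, Matrix.nonsing_inv_mul _ (Ne.isUnit hh),
      Matrix.map_one _ (map_zero _) (map_one _), Matrix.one_mul]
  have hgB : ∀ i j, g i j ∈ B := by
    intro i j
    rw [← hgG, Matrix.mul_apply]
    exact B.sum_mem fun k _ => B.mul_mem (B.algebraMap_mem _) (hGB _ _)
  have hmul : (g + 1) * ((2 : F)⁻¹ • (1 - S)) = 1 := by
    have h1 : (1 - S)⁻¹ * (1 - S) = 1 := Matrix.nonsing_inv_mul _ (Ne.isUnit hDet)
    have h2 : (g + 1) * (1 - S) = (2 : F) • (1 : Matrix (Fin n) (Fin n) F) := by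
      rw [hg, Matrix.add_mul, Matrix.mul_assoc, h1, Matrix.mul_one, Matrix.one_mul, two_smul]
      abel
    rw [Matrix.mul_smul, h2, smul_smul, inv_mul_cancel₀ (two_ne_zero), one_smul]
  have hSB : ∀ i j, S i j ∈ B := by
    set gB : Matrix (Fin n) (Fin n) B := Matrix.of fun i j => ⟨g i j, hgB i j⟩ with hgBd
    have hmap : (gB + 1).map (algebraMap B F) = g + 1 := by
      ext i j
      simp only [Matrix.map_apply, Matrix.add_apply, map_add]
      congr 1
      by_cases hij : i = j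
      · subst hij
        simp
      · simp [hij]
    have hdetB : (gB + 1).det ≠ 0 := by
      intro h
      have h1 : (g + 1).det = 0 := by
        rw [← hmap]
        have h2 := (RingHom.map_det (algebraMap B F) (gB + 1))
        rw [h, map_zero] at h2
        exact h2.symm
      have h3 := congrArg Matrix.det hmul
      rw [Matrix.det_mul, h1, zero_mul, Matrix.det_one] at h3
      exact zero_ne_one h3
    have h4 : (gB + 1) * (gB + 1)⁻¹ = 1 := Matrix.mul_nonsing_inv _ (Ne.isUnit hdetB)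
    have h5 : (g + 1) * ((gB + 1)⁻¹).map (algebraMap B F) = 1 := by
      rw [← hmap, ← Matrix.map_mul, h4, Matrix.map_one _ (map_zero _) (map_one _)]
    have h6 : (2 : F)⁻¹ • (1 - S) = ((gB + 1)⁻¹).map (algebraMap B F) := by
      have h7 : ((gB + 1)⁻¹).map (algebraMap B F) * (g + 1) = 1 := mul_eq_one_comm.1 h5
      calc (2 : F)⁻¹ • (1 - S) = ((gB + 1)⁻¹).map (algebraMap B F) * (g + 1) * ((2 : F)⁻¹ • (1 - S)) := by
            rw [h7, Matrix.one_mul]
        _ = _ := by rw [Matrix.mul_assoc, hmul, Matrix.mul_one]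
    intro i j
    have h8 := congrFun (congrFun h6 i) j
    rw [Matrix.smul_apply, Matrix.sub_apply, Matrix.map_apply, smul_eq_mul] at h8
    have h9 : S i j = (1 : Matrix (Fin n) (Fin n) F) i j - 2 * algebraMap B F ((gB + 1)⁻¹ i j) := by
      rw [← h8, mul_inv_cancel_left₀ two_ne_zero]
      ring
    rw [h9]
    refine B.sub_mem ?_ (B.mul_mem (by simp) ((gB + 1)⁻¹ i j).2)
    rw [Matrix.one_apply]
    split_ifs
    · exact B.one_mem
    · exact B.zero_mem
  have haB : ∀ p, av p ∈ B := by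
    intro p
    have h1 : J.map (algebraMap ℂ F) * S = Gk av := by
      rw [hS, Sm, ← Matrix.mul_assoc, ← Matrix.map_mul, Matrix.mul_nonsing_inv _ (Ne.isUnit hdet),
        Matrix.map_one _ (map_zero _) (map_one _), Matrix.one_mul]
    rw [← Gk_apply av p, ← h1, Matrix.mul_apply]
    exact B.sum_mem fun k _ => B.mul_mem (B.algebraMap_mem _) (hSB _ _)
  -- algebraicity
  have htb : IsTranscendenceBasis ℂ av := by
    have h1 := (IsTranscendenceBasis.mvPolynomial (Uk n) ℂ)
    have : Algebra.IsAlgebraic Rg F := IsLocalization.isAlgebraic F (nonZeroDivisors Rg)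
    exact h1.algebraMap_comp
  have halg : Algebra.IsAlgebraic (Algebra.adjoin ℂ s) F := by
    rw [htb.isAlgebraic_iff]
    intro p
    obtain ⟨x, hx, y, hy, hxy⟩ := IntermediateField.mem_adjoin_iff_div.1 (haB p)
    rw [hxy, div_eq_mul_inv]
    have h1 : IsAlgebraic (Algebra.adjoin ℂ s) x := isAlgebraic_algebraMap (⟨x, hx⟩ : Algebra.adjoin ℂ s)
    have h2 : IsAlgebraic (Algebra.adjoin ℂ s) y := isAlgebraic_algebraMap (⟨y, hy⟩ : Algebra.adjoin ℂ s)
    exact h1.mul h2.inv
  obtain ⟨t, hts, ht⟩ := exists_isTranscendenceBasis_subset (R := ℂ) (A := F) s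
  have hcard : Cardinal.mk t = Cardinal.mk (Uk n) := ht.cardinalMk_eq htb
  have : Finite t := by
    rw [← Cardinal.mk_lt_aleph0_iff, hcard]
    exact Cardinal.mk_lt_aleph0
  have := Fintype.ofFinite t
  have hcard' : Fintype.card t = n * (n - 1) / 2 := by
    rw [← card_Uk, ← Nat.cast_inj (R := Cardinal), ← Cardinal.mk_fintype, ← Cardinal.mk_fintype, hcard]
  set e : Fin (n * (n - 1) / 2) ≃ t := (Fintype.equivFinOfCardEq hcard').symm with he
  have hch : ∀ x : t, ∃ p : Fin n × Fin n, G p.1 p.2 = x := fun x => hts x.2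
  choose pl hpl using hch
  have hind : AlgebraicIndependent ℂ fun i => G (pl (e i)).1 (pl (e i)).2 := by
    have h1 := ht.1.comp e e.injective
    convert h1 using 1
    funext i
    exact hpl (e i)
  refine ⟨fun i => pl (e i), fun P hP => ?_⟩
  -- a nonzero polynomial
  have hgφ : ∀ i j, φ (Uh J h X i j) / φ D = G i j := by
    intro i j
    have h1 : φ (Uh J h X i j) = Uh J h av i j := by
      rw [← Uh_map φ J h X]
      rfl
    rw [h1, hDdef, Dm_map φ J X]
    exact Uh_div J h av i j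
  have h1 : aeval (fun i => G (pl (e i)).1 (pl (e i)).2) P ≠ 0 := fun h => hP (hind.eq_zero_of_aeval_eq_zero P h)
  have h2 := clr_map φ D (fun i => Uh J h X (pl (e i)).1 (pl (e i)).2) P hφD
  simp only [hgφ] at h2
  have h3 : clr D (fun i => Uh J h X (pl (e i)).1 (pl (e i)).2) P ≠ 0 := by
    intro h
    rw [h, map_zero] at h2
    exact (mul_ne_zero (pow_ne_zero _ hφD) h1) h2.symm
  obtain ⟨a, ha⟩ : ∃ a : Uk n → ℂ, eval a (clr D (fun i => Uh J h X (pl (e i)).1 (pl (e i)).2) P * D) ≠ 0 := by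
    by_contra hcon
    push Not at hcon
    exact (mul_ne_zero h3 hD0) (MvPolynomial.funext fun a => by rw [hcon a, map_zero])
  rw [map_mul] at ha
  have ha1 := left_ne_zero_of_mul ha
  have ha2 := right_ne_zero_of_mul ha
  have hDa : Dm J a = eval a D := by
    have h4 := Dm_map (aeval a : Rg →ₐ[ℂ] ℂ) J X
    simp only [aeval_X] at h4
    rw [← h4, hDdef]
    rfl
  have hUa : ∀ i j, Uh J h a i j = eval a (Uh J h X i j) := by
    intro i j
    have h4 := Uh_map (aeval a : Rg →ₐ[ℂ] ℂ) J h X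
    simp only [aeval_X] at h4
    rw [← h4]
    rfl
  refine ⟨(1 + Sm J a) * (1 - Sm J a)⁻¹, ?_, ?_⟩
  · refine cayley ?_ ?_
    · unfold Sm
      exact sym_inv hJ hdet (Gk_skew a)
    · have : (1 - Sm J a).det = Dm J a := rfl
      rw [this, hDa]
      exact ha2
  · have hdiv : ∀ i j, Uh J h a i j / Dm J a = (h * ((1 + Sm J a) * (1 - Sm J a)⁻¹)) i j := by
      intro i j
      rw [Uh_div]
      rfl
    have h5 := clr_map (aeval a : Rg →ₐ[ℂ] ℂ) D (fun i => Uh J h X (pl (e i)).1 (pl (e i)).2) P ha2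
    intro h6
    apply ha1
    have h7 : (fun i => (h * ((1 + Sm J a) * (1 - Sm J a)⁻¹)) (pl (e i)).1 (pl (e i)).2) =
        fun i => (aeval a : Rg →ₐ[ℂ] ℂ) (Uh J h X (pl (e i)).1 (pl (e i)).2) / (aeval a : Rg →ₐ[ℂ] ℂ) D := by
      funext i
      rw [← hdiv, hUa, hDa]
      rfl
    have h8 : eval a (clr D (fun i => Uh J h X (pl (e i)).1 (pl (e i)).2) P) =
        (aeval a : Rg →ₐ[ℂ] ℂ) (clr D (fun i => Uh J h X (pl (e i)).1 (pl (e i)).2) P) := rfl
    rw [h8, h5, ← h7]
    have h9 : aeval (fun i => (h * ((1 + Sm J a) * (1 - Sm J a)⁻¹)) (pl (e i)).1 (pl (e i)).2) P =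
        eval (fun i => (h * ((1 + Sm J a) * (1 - Sm J a)⁻¹)) (pl (e i)).1 (pl (e i)).2) P := rfl
    rw [h9, h6, mul_zero]

theorem eval_sum {S₁ S₂ : Type} (a : S₁ → ℂ) (b : S₂ → ℂ) (P : MvPolynomial (S₁ ⊕ S₂) ℂ) :
    eval (Sum.elim a b) P = eval a (MvPolynomial.map (eval b) (sumRingEquiv ℂ S₁ S₂ P)) := by
  induction P using MvPolynomial.induction_on with
  | C c => rw [sumRingEquiv_C, map_C, eval_C, eval_C, eval_C]
  | add p q hp hq => rw [map_add, map_add, map_add, map_add, hp, hq]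
  | mul_X p i hp =>
    rw [map_mul, map_mul, map_mul, map_mul, hp]
    congr 1
    rcases i with i | i
    · rw [sumRingEquiv_X_inl, map_X, eval_X, eval_X, Sum.elim_inl]
    · rw [sumRingEquiv_X_inr, map_C, eval_C, eval_X, eval_X, Sum.elim_inr]

theorem oco : Pool.Agent.P8H30.OX.S_OCO := by
  intro s n J h hJ hdet hh
  obtain ⟨T0, hT0⟩ := exists_coords J h hJ hdet hh
  let e : Fin (n * (n - 1) / 2 + s * n) ≃ Fin (n * (n - 1) / 2) ⊕ (Fin s × Fin n) :=
    finSumFinEquiv.symm.trans (Equiv.sumCongr (Equiv.refl _) finProdFinEquiv.symm)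
  let F : Fin (n * (n - 1) / 2) ⊕ (Fin s × Fin n) → Fin (s + n) × Fin (s + n) :=
    Sum.elim (fun a => (Fin.natAdd s (T0 a).1, Fin.natAdd s (T0 a).2))
      (fun p => (Fin.castAdd n p.1, Fin.natAdd s p.2))
  refine ⟨fun i => F (e i), fun P hP => ?_⟩
  have hP' : rename e P ≠ 0 := fun h => hP (rename_injective e e.injective (by rw [h, map_zero]))
  set R := sumRingEquiv ℂ (Fin (n * (n - 1) / 2)) (Fin s × Fin n) (rename e P) with hR
  have hR0 : R ≠ 0 := by
    intro h
    apply hP'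
    have := (sumRingEquiv ℂ (Fin (n * (n - 1) / 2)) (Fin s × Fin n)).injective
    exact this (by rw [← hR, h, map_zero])
  obtain ⟨m, hm⟩ : ∃ m, R.coeff m ≠ 0 := by
    by_contra hcon
    push Not at hcon
    exact hR0 (MvPolynomial.ext _ _ fun s => by rw [hcon s, MvPolynomial.coeff_zero])
  obtain ⟨b, hb⟩ : ∃ b : Fin s × Fin n → ℂ, eval b (R.coeff m) ≠ 0 := by
    by_contra hcon
    push Not at hcon
    exact hm (MvPolynomial.funext fun a => by rw [hcon a, map_zero])
  have hP1 : MvPolynomial.map (eval b) R ≠ 0 := by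
    intro h
    apply hb
    rw [← MvPolynomial.coeff_map, h, MvPolynomial.coeff_zero]
  obtain ⟨g, hg, hgP⟩ := hT0 _ hP1
  refine ⟨Matrix.of fun i j => b (i, j), g, hg, ?_⟩
  have key : ∀ x, bl 1 (Matrix.of fun i j => b (i, j)) (h * g) (F x).1 (F x).2 =
      Sum.elim (fun a => (h * g) (T0 a).1 (T0 a).2) b x := by
    rintro (a | p)
    · exact bl_natAdd _ _ _ _ _
    · exact bl_right _ _ _ _ _
  rw [hR, ← eval_sum, eval_rename] at hgP
  have h1 : (fun i => bl 1 (Matrix.of fun i j => b (i, j)) (h * g) (F (e i)).1 (F (e i)).2) =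
      Sum.elim (fun a => (h * g) (T0 a).1 (T0 a).2) b ∘ e := funext fun i => key (e i)
  show eval (fun i => bl 1 (Matrix.of fun i j => b (i, j)) (h * g) (F (e i)).1 (F (e i)).2) P ≠ 0
  rw [h1]
  exact hgP

end Pool.Agent.P8H5.OX.Oco
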