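import Pool.Agent.P8H30.OX.Stm

/-!
# Project OX, package OGN (helper5): reflections of the degenerate form generate
-/

set_option autoImplicit false

open Matrix

namespace Pool.Agent.P8H5.OX

open Pool.Agent.Y119.HY
open Pool.Agent.P8H30.MX
open Pool.Agent.P8H30.OX

theorem vec_rf {n : ℕ} (J : Matrix (Fin n) (Fin n) ℂ) (w : Fin n → ℂ) (hw : om J w w ≠ 0) :
    (w ᵥ* J) ᵥ* rf J w = -(w ᵥ* J) := by
  unfold rf
  rw [vecMul_sub, vecMul_one, vecMul_smul, vecMul_vecMulVec, ← om_eq, smul_smul, div_mul_cancel₀ _ hw]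
  ext i
  simp only [Pi.sub_apply, Pi.smul_apply, Pi.neg_apply, smul_eq_mul]
  ring

theorem rf_sq {n : ℕ} (J : Matrix (Fin n) (Fin n) ℂ) (w : Fin n → ℂ) (hw : om J w w ≠ 0) :
    rf J w * rf J w = 1 := by
  have h1 := vec_rf J w hw
  conv_lhs => arg 1; unfold rf
  rw [sub_mul, Matrix.one_mul, smul_mul_assoc, vecMulVec_mul, h1, vecMulVec_neg, smul_neg, sub_neg_eq_add]
  unfold rf
  rw [sub_add_cancel]

theorem om_bl {s n : ℕ} (J : Matrix (Fin n) (Fin n) ℂ) (y : Fin s → ℂ) (w : Fin n → ℂ) :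
    (Fin.append y w ᵥ* bl (0 : Matrix (Fin s) (Fin s) ℂ) 0 J) = Fin.append 0 (w ᵥ* J) := by
  funext j
  refine Fin.addCases (fun j => ?_) (fun j => ?_) j
  · rw [Fin.append_left]
    simp only [Matrix.vecMul, dotProduct]
    rw [Fin.sum_univ_add]
    simp [bl_castAdd, bl_left]
  · rw [Fin.append_right]
    simp only [Matrix.vecMul, dotProduct]
    rw [Fin.sum_univ_add]
    simp [bl_right, bl_natAdd]

theorem om_bl' {s n : ℕ} (J : Matrix (Fin n) (Fin n) ℂ) (y : Fin s → ℂ) (w : Fin n → ℂ) :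
    om (bl (0 : Matrix (Fin s) (Fin s) ℂ) 0 J) (Fin.append y w) (Fin.append y w) = om J w w := by
  rw [om_eq, om_eq, om_bl]
  simp only [dotProduct]
  rw [Fin.sum_univ_add]
  simp

theorem rf_bl {s n : ℕ} (J : Matrix (Fin n) (Fin n) ℂ) (y : Fin s → ℂ) (w : Fin n → ℂ) :
    rf (bl (0 : Matrix (Fin s) (Fin s) ℂ) 0 J) (Fin.append y w) =
      bl 1 (-(2 / om J w w) • vecMulVec y (w ᵥ* J)) (rf J w) := by
  unfold rf
  rw [om_bl', om_bl]
  ext i j
  refine Fin.addCases (fun i => ?_) (fun i => ?_) i <;> refine Fin.addCases (fun j => ?_) (fun j => ?_) j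
  · rw [bl_castAdd, Matrix.sub_apply, Matrix.smul_apply, vecMulVec_apply, Matrix.one_apply, Matrix.one_apply]
    simp
  · rw [bl_right, Matrix.sub_apply, Matrix.smul_apply, vecMulVec_apply, Matrix.one_apply, Fin.append_left,
      Fin.append_right, Matrix.smul_apply, vecMulVec_apply, if_neg, zero_sub, neg_smul]
    intro e
    have := congrArg Fin.val e
    simp at this
    omega
  · rw [bl_left, Matrix.sub_apply, Matrix.smul_apply, vecMulVec_apply, Fin.append_left, Matrix.one_apply, if_neg]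
    · simp
    intro e
    have := congrArg Fin.val e
    simp at this
    omega
  · rw [bl_natAdd, Matrix.sub_apply, Matrix.smul_apply, vecMulVec_apply, Matrix.one_apply, Fin.append_right,
      Fin.append_right, Matrix.sub_apply, Matrix.smul_apply, vecMulVec_apply, Matrix.one_apply]
    simp

theorem om_sy {n : ℕ} (J : Matrix (Fin n) (Fin n) ℂ) (hJ : J.transpose = J) (u v : Fin n → ℂ) :
    om J u v = om J v u := by
  rw [om_eq]
  unfold om
  rw [dotProduct_comm, ← mulVec_transpose, hJ]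

/-- every vector is a sum of two nonisotropic vectors, if there is one -/
theorem two_sum {n : ℕ} (J : Matrix (Fin n) (Fin n) ℂ) (hJ : J.transpose = J) (u : Fin n → ℂ)
    (hu : om J u u ≠ 0) (w : Fin n → ℂ) : ∃ w1 w2 : Fin n → ℂ, w = w1 + w2 ∧ om J w1 w1 ≠ 0 ∧ om J w2 w2 ≠ 0 := by
  have hexp : ∀ c : ℂ, om J (w + (-c) • u) (w + (-c) • u) = om J w w - 2 * c * om J u w + c ^ 2 * om J u u := by
    intro c
    have h1 : ∀ a b d : Fin n → ℂ, om J (a + b) d = om J a d + om J b d := by
      intro a b d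
      rw [om_sy J hJ, om_add, om_sy J hJ d a, om_sy J hJ d b]
    have h2 : ∀ (e : ℂ) (a d : Fin n → ℂ), om J (e • a) d = e * om J a d := by
      intro e a d
      rw [om_sy J hJ, om_smul, om_sy J hJ d a]
    rw [om_add, h1, h1, om_smul, om_smul, h2, h2, om_sy J hJ w u]
    ring
  -- a nonzero `c` with a nonzero value
  have hc : ∃ c : ℂ, c ≠ 0 ∧ om J w w - 2 * c * om J u w + c ^ 2 * om J u u ≠ 0 := by
    by_contra hcon
    push Not at hcon
    have e1 := hcon 1 one_ne_zero
    have e2 := hcon 2 two_ne_zero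
    have e3 := hcon 3 three_ne_zero
    apply hu
    linear_combination (1 / 2 : ℂ) * e1 - e2 + (1 / 2 : ℂ) * e3
  obtain ⟨c, hc0, hc1⟩ := hc
  refine ⟨w + (-c) • u, c • u, ?_, ?_, ?_⟩
  · ext i
    simp
  · rw [hexp]
    exact hc1
  · have h2 : ∀ (e : ℂ) (a d : Fin n → ℂ), om J (e • a) d = e * om J a d := by
      intro e a d
      rw [om_sy J hJ, om_smul, om_sy J hJ d a]
    rw [om_smul, h2]
    exact mul_ne_zero hc0 (mul_ne_zero hc0 hu)

theorem ogn : S_CD → S_OGN := by
  intro hcd s n J S hJ hdet hrf b g hg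
  -- (1)
  have h1 : ∀ g : Matrix (Fin n) (Fin n) ℂ, g.transpose * J * g = J → bl 1 0 g ∈ S := by
    let φ : Matrix (Fin n) (Fin n) ℂ →* Matrix (Fin (s + n)) (Fin (s + n)) ℂ :=
      { toFun := fun g => bl 1 0 g
        map_one' := bl_one
        map_mul' := fun g g' => by rw [bl_mul]; simp }
    intro g hg
    refine hcd n J (S.comap φ) hJ hdet (fun w hw => ?_) g hg
    rw [Submonoid.mem_comap]
    have h3 := hrf (Fin.append (0 : Fin s → ℂ) w) (by rw [om_bl']; exact hw)
    rw [rf_bl, zero_vecMulVec, smul_zero] at h3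
    exact h3
  -- (2) for nonisotropic vectors
  have h2a : ∀ (y : Fin s → ℂ) (w : Fin n → ℂ), om J w w ≠ 0 → bl 1 (vecMulVec y (w ᵥ* J)) 1 ∈ S := by
    intro y w hw
    have h0 : bl 1 0 (rf J w) ∈ S := by
      have h3 := hrf (Fin.append (0 : Fin s → ℂ) w) (by rw [om_bl']; exact hw)
      rw [rf_bl, zero_vecMulVec, smul_zero] at h3
      exact h3
    have h3 := mul_mem (hrf (Fin.append ((om J w w / 2) • y) w) (by rw [om_bl']; exact hw)) h0
    rw [rf_bl, bl_mul, one_mul, Matrix.one_mul, zero_add, rf_sq J w hw, Matrix.smul_mul, vecMulVec_mul,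
      vec_rf J w hw] at h3
    have h4 : (-(2 / om J w w)) • vecMulVec ((om J w w / 2) • y) (-(w ᵥ* J)) = vecMulVec y (w ᵥ* J) := by
      ext i j
      rw [Matrix.smul_apply, vecMulVec_apply, vecMulVec_apply, Pi.smul_apply, Pi.neg_apply, smul_eq_mul,
        smul_eq_mul]
      field_simp
    rw [h4] at h3
    exact h3
  have h2 : ∀ (y : Fin s → ℂ) (ψ : Fin n → ℂ), bl 1 (vecMulVec y ψ) 1 ∈ S := by
    intro y ψ
    set w := ψ ᵥ* J⁻¹ with hw
    have hwJ : w ᵥ* J = ψ := by
      rw [hw, vecMul_vecMul, nonsing_inv_mul _ (Ne.isUnit hdet), vecMul_one]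
    by_cases hu : ∃ u, om J u u ≠ 0
    · obtain ⟨u, hu⟩ := hu
      obtain ⟨w1, w2, hw12, hn1, hn2⟩ := two_sum J hJ u hu w
      have h3 := mul_mem (h2a y w1 hn1) (h2a y w2 hn2)
      rw [bl_mul, one_mul, Matrix.one_mul, Matrix.mul_one, mul_one, ← vecMulVec_add, ← add_vecMul,
        add_comm w2 w1, ← hw12, hwJ] at h3
      exact h3
    · push Not at hu
      have hz : ∀ u v, om J u v = 0 := by
        intro u v
        have e1 := hu (u + v)
        have h1' : ∀ a b d : Fin n → ℂ, om J (a + b) d = om J a d + om J b d := by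
          intro a b d
          rw [om_sy J hJ, om_add, om_sy J hJ d a, om_sy J hJ d b]
        rw [om_add, h1', h1', hu u, hu v, om_sy J hJ v u] at e1
        have e2 : 2 * om J u v = 0 := by linear_combination e1
        exact (mul_eq_zero.1 e2).resolve_left two_ne_zero
      have hψ : ψ = 0 := by
        rw [← hwJ]
        funext i
        have := hz w (Pi.single i 1)
        rw [om_eq, dotProduct_single_one] at this
        exact this
      have hv0 : vecMulVec y (0 : Fin n → ℂ) = 0 := by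
        ext i j
        simp [vecMulVec_apply]
      rw [hψ, hv0, bl_one]
      exact one_mem _
  -- (3)
  have h3 : bl 1 b 1 ∈ S := by
    have h4 : ∀ T : Finset (Fin s), bl 1 (∑ i ∈ T, vecMulVec (Pi.single i (1 : ℂ)) (fun j => b i j)) 1 ∈ S := by
      intro T
      induction T using Finset.induction_on with
      | empty => rw [Finset.sum_empty, bl_one]; exact one_mem _
      | insert i T hi ih =>
        rw [Finset.sum_insert hi]
        have h5 := mul_mem ih (h2 (Pi.single i 1) (fun j => b i j))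
        rw [bl_mul, one_mul, Matrix.one_mul, Matrix.mul_one, mul_one] at h5
        exact h5
    have h5 := h4 Finset.univ
    have h6 : (∑ i : Fin s, vecMulVec (Pi.single i (1 : ℂ)) (fun j => b i j)) = b := by
      ext k l
      rw [Matrix.sum_apply, Finset.sum_eq_single k]
      · rw [vecMulVec_apply, Pi.single_eq_same, one_mul]
      · intro i _ hik
        rw [vecMulVec_apply, Pi.single_eq_of_ne hik.symm, zero_mul]
      · simp
    rw [h6] at h5
    exact h5
  have h4 := mul_mem (h1 g hg) h3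
  rw [bl_mul, one_mul, Matrix.one_mul, mul_one, Matrix.zero_mul, add_zero] at h4
  exact h4

end Pool.Agent.P8H5.OX
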